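import Mathlib
import Pool.Agent.V7L.Bot.Core

/-!
# Decomposing multiple coverings by bottomless rectangles: `m*_k ≤ 2k - 1`
-/

namespace Pool.Agent.Results.MP_00bc5b_co.LinearThresholdLead

open Finset

/-- The bottomless rectangle with left side `x = l`, right side `x = r` and top `y = t`. -/
def bottomless (l r t : ℝ) : Set (ℝ × ℝ) := {p | l ≤ p.1 ∧ p.1 ≤ r ∧ p.2 ≤ t}

/-- `S` is a bottomless rectangle. -/
def IsBottomless (S : Set (ℝ × ℝ)) : Prop := ∃ l r t : ℝ, l ≤ r ∧ S = bottomless l r t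

/-- The finite family `B` is an `m`-fold covering of the finite point set `P`: every point of `P`
lies in at least `m` members of `B`. -/
def IsCovering (m : ℕ) (P : Finset (ℝ × ℝ)) {N : ℕ} (B : Fin N → Set (ℝ × ℝ)) : Prop :=
  ∀ p ∈ P, m ≤ Nat.card {i : Fin N // p ∈ B i}

/-- The family `B` splits into `k` coverings of `P`: its members can be distributed over `k`
classes each of which covers every point of `P`. -/
def SplitsInto (k : ℕ) (P : Finset (ℝ × ℝ)) {N : ℕ} (B : Fin N → Set (ℝ × ℝ)) : Prop :=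
  ∃ c : Fin N → Fin k, ∀ a : Fin k, ∀ p ∈ P, ∃ i, c i = a ∧ p ∈ B i

/-- Every finite `m`-fold covering of a finite point set by bottomless rectangles splits into `k`
coverings. -/
def Suffices (k m : ℕ) : Prop :=
  ∀ (P : Finset (ℝ × ℝ)) (N : ℕ) (B : Fin N → Set (ℝ × ℝ)),
    (∀ i, IsBottomless (B i)) → IsCovering m P B → SplitsInto k P B

/-- The number `m*_k`: the least `m` such that every finite `m`-fold covering of a finite point
set by bottomless rectangles splits into `k` coverings, and `∞` if there is no such `m`. -/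
noncomputable def mStar (k : ℕ) : ℕ∞ := sInf {m : ℕ∞ | ∃ n : ℕ, m = (n : ℕ∞) ∧ Suffices k n}

open V7L.Bot in
lemma suffices_two_mul_sub_one (k : ℕ) (hk : 1 ≤ k) : Suffices k (2 * k - 1) := by
  classical
  intro P N B hB hcov
  choose l r t hlr hBe using hB
  set m := 2 * k - 1 with hm
  let σ : Equiv.Perm (Fin N) := Tuple.sort (fun i => -t i)
  have hσ : ∀ i j : Fin N, i ≤ j → t (σ j) ≤ t (σ i) := by
    intro i j hij
    have := Tuple.monotone_sort (fun i => -t i) hij
    simp only [Function.comp_apply] at this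
    have h2 : -t (σ i) ≤ -t (σ j) := this
    linarith
  let L : ℕ → ℝ := fun j => if h : j < N then l (σ ⟨j, h⟩) else 0
  let R : ℕ → ℝ := fun j => if h : j < N then r (σ ⟨j, h⟩) else 0
  have memL : ∀ (j : Fin N) (x : ℝ), Mem L R (j : ℕ) x ↔ l (σ j) ≤ x ∧ x ≤ r (σ j) := by
    intro j x
    simp [Mem, L, R, j.2]
  -- the intervals of the members of `B` containing `p`
  have hpos : ∀ p ∈ P, ∀ s ≤ N, (∀ i : Fin N, p ∈ B (σ i) → (i : ℕ) < s) →
      m ≤ depth L R s p.1 := by
    intro p hp s hs hall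
    refine (hcov p hp).trans ?_
    rw [Nat.card_eq_fintype_card, Fintype.card_subtype]
    unfold depth
    have : (univ.filter (fun i : Fin N => p ∈ B i)).card =
        ((univ.filter (fun i : Fin N => p ∈ B i)).image
          (fun i => ((σ.symm i : Fin N) : ℕ))).card := by
      rw [card_image_of_injective]
      intro a b hab
      exact σ.symm.injective (Fin.ext hab)
    rw [this]
    apply card_le_card
    intro j hj
    simp only [mem_image, mem_filter, mem_univ, true_and] at hj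
    obtain ⟨i, hi, rfl⟩ := hj
    have hi' : p ∈ B (σ (σ.symm i)) := by simpa using hi
    simp only [at', mem_filter, mem_range]
    refine ⟨hall _ hi', ?_⟩
    rw [memL]
    have := hi
    rw [hBe i] at this
    simp only [Equiv.apply_symm_apply]
    exact ⟨this.1, this.2.1⟩
  obtain ⟨c, hc⟩ := exists_colouring L R (k := k) m (by omega) (by omega) N
    (P.image Prod.fst) (by
      intro x hx
      obtain ⟨p, hp, rfl⟩ := mem_image.1 hx
      exact hpos p hp N le_rfl (fun i _ => i.2))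
  refine ⟨fun i => (c ((σ.symm i : Fin N) : ℕ)).getD ⟨0, hk⟩, ?_⟩
  intro a p hp
  obtain ⟨j, hj, hjx, hjd, hjc⟩ := hc p.1 (mem_image_of_mem _ hp) a
  refine ⟨σ ⟨j, hj⟩, by simp [hjc], ?_⟩
  have hjx' := (memL ⟨j, hj⟩ p.1).1 hjx
  rw [hBe]
  refine ⟨hjx'.1, hjx'.2, ?_⟩
  by_contra hlt
  push Not at hlt
  have : m ≤ depth L R j p.1 := by
    refine hpos p hp j hj.le ?_
    intro i hi
    by_contra hge
    push Not at hge
    have h1 : t (σ i) ≤ t (σ ⟨j, hj⟩) := hσ ⟨j, hj⟩ i (by
      rw [Fin.le_def]; exact hge)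
    rw [hBe] at hi
    have h2 := hi.2.2
    linarith
  omega

/-- `m*_k ≤ 2k - 1` for every `k ≥ 1`; in particular `m*_k = O(k)`. -/
theorem result :
    (∃ C : ℕ, ∀ k : ℕ, 1 ≤ k → mStar k ≤ ((C * k : ℕ) : ℕ∞)) ∧
      ∀ k : ℕ, 1 ≤ k → mStar k ≤ ((2 * k - 1 : ℕ) : ℕ∞) := by
  have h : ∀ k : ℕ, 1 ≤ k → mStar k ≤ ((2 * k - 1 : ℕ) : ℕ∞) := fun k hk =>
    sInf_le ⟨2 * k - 1, rfl, suffices_two_mul_sub_one k hk⟩
  refine ⟨⟨2, fun k hk => (h k hk).trans ?_⟩, h⟩
  exact_mod_cast Nat.sub_le _ _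

end Pool.Agent.Results.MP_00bc5b_co.LinearThresholdLead
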